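import Pool.Agent.Helper94_PP.StmtsKR

/-!
# Squad PP, module KRI: the theorem of Knörr and Robinson
-/

open scoped BigOperators

noncomputable section

namespace Pool.Agent.PP.H97

open Pool.Agent.Helper51_AWC Pool.Agent.Helper79_WRA Pool.Agent.PP

/-! ### transport along isomorphisms -/

section transport

variable {F H H' : Type} [Field F] [Group H] [Group H']

theorem actF_comp (φ : H ≃* H') (a f : H' → F) :
    actF (fun t => a (φ t)) (fun t => f (φ t)) = fun t => actF a f (φ t) := by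
  funext x
  simp only [actF, map_mul]
  exact finsum_comp_equiv φ.toEquiv (f := fun t => a t * f (t * φ x))

theorem mem_IBr_comp (φ : H ≃* H') {f : H' → F} (hf : f ∈ IBr F H') :
    (fun t => f (φ t)) ∈ IBr F H := by
  obtain ⟨n, ρ, hρ, rfl⟩ := hf
  refine ⟨n, ρ.comp φ.toMonoidHom, ⟨hρ.1, ?_⟩, rfl⟩
  have : Set.range (ρ.comp φ.toMonoidHom) = Set.range ρ := by
    ext x
    constructor
    · rintro ⟨h, rfl⟩
      exact ⟨φ h, rfl⟩
    · rintro ⟨h, rfl⟩
      exact ⟨φ.symm h, by simp⟩
  rw [this]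
  exact hρ.2

theorem ncard_comp (φ : H ≃* H') (a : H' → F) :
    {f : H → F | f ∈ IBr F H ∧ actF (fun t => a (φ t)) f = f}.ncard =
      {f : H' → F | f ∈ IBr F H' ∧ actF a f = f}.ncard := by
  have hinj : Function.Injective (fun (f : H' → F) => (fun t => f (φ t) : H → F)) := by
    intro f g hfg
    funext x
    have := congrFun hfg (φ.symm x)
    simpa using this
  rw [← Set.ncard_image_of_injective _ hinj]
  congr 1
  ext f
  constructor
  · rintro ⟨h1, h2⟩
    refine ⟨fun t => f (φ.symm t), ⟨mem_IBr_comp φ.symm h1, ?_⟩, ?_⟩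
    · have h3 := actF_comp φ.symm (fun t => a (φ t)) f
      rw [h2] at h3
      simpa using h3
    · funext t
      simp
  · rintro ⟨g, ⟨h1, h2⟩, rfl⟩
    refine ⟨mem_IBr_comp φ h1, ?_⟩
    rw [actF_comp, h2]

theorem lnum_map {G : Type} [Group G] (X : Subgroup G) (K : Subgroup X) (a : G → F) :
    lnum K (fun t : X => a t) = lnum (K.map X.subtype) a :=
  ncard_comp (K.equivMapOfInjective X.subtype X.subtype_injective)
    (fun t : K.map X.subtype => a t)

theorem card_map {G : Type} [Group G] (X : Subgroup G) (K : Subgroup X) :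
    Nat.card K = Nat.card (K.map X.subtype) :=
  Nat.card_congr (K.equivMapOfInjective X.subtype X.subtype_injective).toEquiv

theorem lnum_congr {G : Type} [Group G] (X : Subgroup G) {a b : G → F}
    (h : ∀ t ∈ X, a t = b t) : lnum X a = lnum X b := by
  have : (fun t : X => a t) = fun t : X => b t := funext fun t => h t t.2
  rw [lnum, this, lnum]

theorem centralizer_map {G : Type} [Group G] (X : Subgroup G) (u : X) :
    (Subgroup.centralizer ({u} : Set X)).map X.subtype =
      Subgroup.centralizer ({(u : G)} : Set G) ⊓ X := by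
  ext t
  rw [Subgroup.mem_map, Subgroup.mem_inf, Subgroup.mem_centralizer_singleton_iff]
  constructor
  · rintro ⟨s, hs, rfl⟩
    rw [Subgroup.mem_centralizer_singleton_iff] at hs
    exact ⟨congrArg Subtype.val hs, s.2⟩
  · rintro ⟨h1, h2⟩
    refine ⟨⟨t, h2⟩, ?_, rfl⟩
    rw [Subgroup.mem_centralizer_singleton_iff]
    exact Subtype.ext h1

end transport

/-! ### the second main theorem for a subgroup -/

open Classical in
theorem smt_sub (hS : SmtStmt) {ℓ : ℕ} {F : Type} [Field F] (hF : GoodF ℓ F) {G : Type} [Group G]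
    [Fintype G] (X : Subgroup G) (a : G → F) (ha : IsIdem (fun t : X => a t)) :
    Nat.card X * rk (fun t : X => a t) (cfs F X) =
      ∑ u ∈ Finset.univ.filter (fun u : G => ∃ n : ℕ, u ^ ℓ ^ n = 1),
        if u ∈ X then Nat.card (Subgroup.centralizer ({u} : Set G) ⊓ X : Subgroup G) *
          lnum (Subgroup.centralizer ({u} : Set G) ⊓ X) a else 0 := by
  have := Fintype.ofFinite X
  rw [hS ℓ F hF X _ ha, ← Finset.sum_filter]
  apply Finset.sum_bij (fun (u : X) _ => (u : G))
  · intro u hu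
    rw [Finset.mem_filter] at hu
    rw [Finset.mem_filter, Finset.mem_filter]
    obtain ⟨n, hn⟩ := hu.2
    exact ⟨⟨Finset.mem_univ _, n, by rw [← Subgroup.coe_pow, hn, Subgroup.coe_one]⟩, u.2⟩
  · intro u _ v _ h
    exact Subtype.ext h
  · intro u hu
    rw [Finset.mem_filter, Finset.mem_filter] at hu
    obtain ⟨⟨_, n, hn⟩, hu⟩ := hu
    exact ⟨⟨u, hu⟩, Finset.mem_filter.2 ⟨Finset.mem_univ _, n, Subtype.ext hn⟩, rfl⟩
  · intro u _
    rw [card_map, lnum_map, centralizer_map]

/-! ### chains normalised by an `ℓ`-element -/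

section chains

variable {G : Type} [Group G]

theorem mem_stab {d : Finset (Subgroup G)} {g : G} :
    g ∈ stab d ↔ ∀ D ∈ d, g ∈ Subgroup.normalizer (D : Set G) := by
  rw [stab]
  simp only [Subgroup.mem_iInf]

theorem le_tp {d : Finset (Subgroup G)} {D : Subgroup G} (h : D ∈ d) : D ≤ top d :=
  le_sSup h

theorem top_mem {d : Finset (Subgroup G)} (hd : IsChain (· ≤ ·) (d : Set (Subgroup G)))
    (hne : d.Nonempty) : top d ∈ d := by
  obtain ⟨x, hx, h⟩ := exists_greatest hd hne
  have : top d = x := le_antisymm (sSup_le h) (le_tp hx)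
  rw [this]
  exact hx

theorem top_insert [DecidableEq (Subgroup G)] (d : Finset (Subgroup G)) (P : Subgroup G) :
    top (insert P d) = P ⊔ top d := by
  rw [top, Finset.coe_insert, sSup_insert, top]

theorem norm_sup {g : G} {P Q : Subgroup G} (hP : g ∈ Subgroup.normalizer (P : Set G))
    (hQ : g ∈ Subgroup.normalizer (Q : Set G)) :
    g ∈ Subgroup.normalizer ((P ⊔ Q : Subgroup G) : Set G) := by
  rw [Subgroup.mem_normalizer_iff_map_conj_eq] at hP hQ ⊢
  rw [Subgroup.map_sup, hP, hQ]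

theorem cent_le_norm {g u : G} (hg : g ∈ Subgroup.centralizer ({u} : Set G)) :
    g ∈ Subgroup.normalizer ((Subgroup.zpowers u : Subgroup G) : Set G) := by
  rw [Subgroup.mem_centralizer_singleton_iff] at hg
  rw [Subgroup.mem_normalizer_iff_map_conj_eq, MonoidHom.map_zpowers]
  congr 1
  change g * u * g⁻¹ = u
  rw [hg, mul_inv_cancel_right]

theorem isPGroup_zp {ℓ : ℕ} {u : G} (hu : ∃ n : ℕ, u ^ ℓ ^ n = 1) :
    IsPGroup ℓ (Subgroup.zpowers u) := by
  obtain ⟨n, hn⟩ := hu
  rintro ⟨g, k, rfl⟩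
  refine ⟨n, Subtype.ext ?_⟩
  change (u ^ k) ^ ℓ ^ n = 1
  rw [← zpow_natCast, ← zpow_mul, mul_comm, zpow_mul, zpow_natCast, hn, one_zpow]

theorem mem_psubIn_top [Finite G] {ℓ : ℕ} {D : Subgroup G} :
    D ∈ psubIn ℓ (⊤ : Subgroup G) ↔ IsPGroup ℓ D := by
  rw [psubIn, Set.Finite.mem_toFinset, Set.mem_ofPred_eq]
  exact ⟨fun h => h.2, fun h => ⟨le_top, h⟩⟩

theorem stab_insert [DecidableEq (Subgroup G)] {u : G} {d : Finset (Subgroup G)}
    {P : Subgroup G} (hP : P ∈ d) :
    Subgroup.centralizer ({u} : Set G) ⊓ stab (insert (P ⊔ Subgroup.zpowers u) d) =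
      Subgroup.centralizer ({u} : Set G) ⊓ stab d := by
  ext g
  rw [Subgroup.mem_inf, Subgroup.mem_inf, mem_stab, mem_stab]
  refine and_congr_right fun hg => ?_
  constructor
  · intro h D hD
    exact h D (Finset.mem_insert_of_mem hD)
  · intro h D hD
    rcases Finset.mem_insert.1 hD with rfl | hD
    · exact norm_sup (h P hP) (cent_le_norm hg)
    · exact h D hD

theorem top_insert' [DecidableEq (Subgroup G)] {u : G} {d : Finset (Subgroup G)}
    {P : Subgroup G} (hP : P ∈ d) :
    Subgroup.zpowers u ⊔ top (insert (P ⊔ Subgroup.zpowers u) d) =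
      Subgroup.zpowers u ⊔ top d := by
  rw [top_insert]
  have h := le_tp hP
  apply le_antisymm
  · refine sup_le le_sup_left (sup_le (sup_le (h.trans le_sup_right) le_sup_left) le_sup_right)
  · exact sup_le le_sup_left (le_sup_right.trans le_sup_right)

open Classical in
/-- the chains normalised by an `ℓ`-element different from `1` cancel -/
theorem cancel [Finite G] {ℓ : ℕ} (u : G) (hu : ∃ n : ℕ, u ^ ℓ ^ n = 1) (hu1 : u ≠ 1)
    (W : Subgroup G → Subgroup G → ℤ)
    (hW : ∀ X R : Subgroup G, X ≤ Subgroup.centralizer ({u} : Set G) →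
      W X (Subgroup.zpowers u ⊔ R) = W X R) :
    ∑ d ∈ (chainsOn (psubIn ℓ (⊤ : Subgroup G)) ⊥).filter (fun d => u ∈ stab d),
      (-1) ^ (d.card + 1) * W (Subgroup.centralizer ({u} : Set G) ⊓ stab d) (top d) = 0 := by
  set S := (chainsOn (psubIn ℓ (⊤ : Subgroup G)) ⊥).filter (fun d => u ∈ stab d) with hS
  let m : Finset (Subgroup G) → Subgroup G := fun d => greatest (d.filter (fun P => u ∉ P)) ⊥
  let e : Finset (Subgroup G) → Subgroup G := fun d => m d ⊔ Subgroup.zpowers u
  have hue : ∀ d, u ∈ e d := fun d =>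
    (le_sup_right : Subgroup.zpowers u ≤ e d) (Subgroup.mem_zpowers u)
  have hm : ∀ d ∈ S, m d ∈ d ∧ u ∉ m d ∧ ∀ P ∈ d, u ∉ P → P ≤ m d := by
    intro d hd
    rw [hS, Finset.mem_filter, mem_chainsOn] at hd
    obtain ⟨⟨h1, h2, h3⟩, h4⟩ := hd
    have := greatest_spec (dflt := ⊥) (c := d.filter (fun P => u ∉ P))
      (h3.mono (by intro y hy; exact Finset.mem_of_mem_filter y hy))
      ⟨⊥, Finset.mem_filter.2 ⟨h2, fun h => hu1 (Subgroup.mem_bot.1 h)⟩⟩
    have h5 := Finset.mem_filter.1 this.1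
    exact ⟨h5.1, h5.2, fun P hP hP' => this.2 P (Finset.mem_filter.2 ⟨hP, hP'⟩)⟩
  have hne : ∀ d P, u ∉ P → P ≠ e d := by
    intro d P hP h
    exact hP (h ▸ hue d)
  -- members of the toggled chain
  have ht : ∀ (d : Finset (Subgroup G)) (P : Subgroup G), P ≠ e d →
      (P ∈ toggle d (e d) ↔ P ∈ d) := by
    intro d P hP
    unfold toggle
    split_ifs with h
    · rw [Finset.mem_erase]
      exact ⟨fun h => h.2, fun h => ⟨hP, h⟩⟩
    · rw [Finset.mem_insert]
      exact ⟨fun h => h.resolve_left hP, fun h => Or.inr h⟩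
  have hmt : ∀ d, m (toggle d (e d)) = m d := by
    intro d
    have : (toggle d (e d)).filter (fun P => u ∉ P) = d.filter (fun P => u ∉ P) := by
      ext P
      rw [Finset.mem_filter, Finset.mem_filter]
      constructor
      · rintro ⟨h1, h2⟩
        exact ⟨(ht d P (hne d P h2)).1 h1, h2⟩
      · rintro ⟨h1, h2⟩
        exact ⟨(ht d P (hne d P h2)).2 h1, h2⟩
    change greatest _ ⊥ = greatest _ ⊥
    rw [this]
  have hcmp : ∀ d ∈ S, ∀ P ∈ d, P ≤ e d ∨ e d ≤ P := by
    intro d hd P hP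
    obtain ⟨h1, h2, h3⟩ := hm d hd
    by_cases hup : u ∈ P
    · right
      rw [hS, Finset.mem_filter, mem_chainsOn] at hd
      rcases chain_total hd.1.2.2 hP h1 with h | h
      · exact absurd (h hup) h2
      · exact sup_le h ((Subgroup.zpowers_le).2 hup)
    · left
      exact (h3 P hP hup).trans le_sup_left
  -- the toggled chain and the chain differ by the insertion of `e d`
  have hins : ∀ d ∈ S, ∃ d₀, m d ∈ d₀ ∧ e d ∉ d₀ ∧
      ((d = d₀ ∧ toggle d (e d) = insert (e d) d₀) ∨
        (d = insert (e d) d₀ ∧ toggle d (e d) = d₀)) := by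
    intro d hd
    obtain ⟨h1, h2, h3⟩ := hm d hd
    by_cases h : e d ∈ d
    · refine ⟨d.erase (e d), Finset.mem_erase.2 ⟨hne d _ h2, h1⟩, Finset.notMem_erase _ _,
        Or.inr ⟨(Finset.insert_erase h).symm, ?_⟩⟩
      rw [toggle, if_pos h]
    · refine ⟨d, h1, h, Or.inl ⟨rfl, ?_⟩⟩
      rw [toggle, if_neg h]
  have hstab : ∀ d ∈ S, Subgroup.centralizer ({u} : Set G) ⊓ stab (toggle d (e d)) =
      Subgroup.centralizer ({u} : Set G) ⊓ stab d := by
    intro d hd
    obtain ⟨d₀, h1, h2, ⟨h3, h4⟩ | ⟨h3, h4⟩⟩ := hins d hd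
    · rw [h4, stab_insert h1, ← h3]
    · rw [h4]
      conv_rhs => rw [h3, stab_insert h1]
  apply sum_toggle S e
  · intro d hd
    have hd' := hd
    rw [hS, Finset.mem_filter, mem_chainsOn] at hd'
    obtain ⟨⟨h1, h2, h3⟩, h4⟩ := hd'
    have h5 : u ∈ Subgroup.centralizer ({u} : Set G) ⊓ stab (toggle d (e d)) := by
      rw [hstab d hd]
      exact ⟨Subgroup.mem_centralizer_singleton_iff.2 rfl, h4⟩
    rw [hS, Finset.mem_filter, mem_chainsOn]
    refine ⟨⟨?_, ?_, ?_⟩, h5.2⟩
    · intro P hP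
      by_cases hPe : P = e d
      · rw [hPe, mem_psubIn_top]
        obtain ⟨g1, g2, g3⟩ := hm d hd
        apply IsPGroup.to_sup_of_normal_left' (mem_psubIn_top.1 (h1 g1)) (isPGroup_zp hu)
        exact (Subgroup.zpowers_le).2 (mem_stab.1 h4 _ g1)
      · exact h1 ((ht d P hPe).1 hP)
    · exact (ht d _ (hne d ⊥ fun h => hu1 (Subgroup.mem_bot.1 h))).2 h2
    · unfold toggle
      split_ifs with h
      · exact h3.mono (by intro y hy; exact Finset.mem_of_mem_erase hy)
      · rw [Finset.coe_insert]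
        apply h3.insert
        intro P hP _
        exact (hcmp d hd P hP).symm
  · intro d hd
    change m (toggle d (e d)) ⊔ Subgroup.zpowers u = m d ⊔ Subgroup.zpowers u
    rw [hmt]
  · intro d hd
    rw [hstab d hd]
    have hX : Subgroup.centralizer ({u} : Set G) ⊓ stab d ≤
      Subgroup.centralizer ({u} : Set G) := inf_le_left
    rw [← hW _ (top d) hX, ← hW _ (top (toggle d (e d))) hX]
    obtain ⟨d₀, h1, h2, ⟨h3, h4⟩ | ⟨h3, h4⟩⟩ := hins d hd
    · rw [h4, top_insert' h1, Finset.card_insert_of_notMem h2, ← h3]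
      ring
    · have h5 : d.card = d₀.card + 1 := by
        rw [h3, Finset.card_insert_of_notMem h2]
      have h6 : Subgroup.zpowers u ⊔ top d = Subgroup.zpowers u ⊔ top d₀ := by
        rw [h3, top_insert' h1]
      rw [h4, h5, h6]
      ring

theorem mem_cent_iff {t : G} {R : Subgroup G} :
    t ∈ Subgroup.centralizer (R : Set G) ↔ R ≤ Subgroup.centralizer ({t} : Set G) := by
  rw [Subgroup.mem_centralizer_iff]
  constructor
  · intro h x hx
    rw [Subgroup.mem_centralizer_singleton_iff]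
    exact h x hx
  · intro h x hx
    exact Subgroup.mem_centralizer_singleton_iff.1 (h hx)

theorem cent_top_le {d : Finset (Subgroup G)} :
    Subgroup.centralizer ((top d : Subgroup G) : Set G) ≤ stab d := by
  intro g hg
  rw [mem_stab]
  intro D hD
  rw [Subgroup.mem_normalizer_iff_map_conj_eq]
  have h : ∀ x ∈ D, g * x * g⁻¹ = x := by
    intro x hx
    rw [← Subgroup.mem_centralizer_iff.1 hg x (le_tp hD hx), mul_inv_cancel_right]
  ext x
  rw [Subgroup.mem_map]
  constructor
  · rintro ⟨y, hy, rfl⟩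
    change g * y * g⁻¹ ∈ D
    rw [h y hy]
    exact hy
  · intro hx
    exact ⟨x, hx, h x hx⟩

theorem stab_le {d : Finset (Subgroup G)} {D : Subgroup G} (hD : D ∈ d) :
    stab d ≤ Subgroup.normalizer (D : Set G) := fun _ hg => mem_stab.1 hg D hD

theorem br_sup {F : Type} [Field F] {t u : G} (htu : t ∈ Subgroup.centralizer ({u} : Set G))
    (R : Subgroup G) (a : G → F) : br (Subgroup.zpowers u ⊔ R) a t = br R a t := by
  classical
  have : t ∈ Subgroup.centralizer ((Subgroup.zpowers u ⊔ R : Subgroup G) : Set G) ↔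
      t ∈ Subgroup.centralizer (R : Set G) := by
    rw [mem_cent_iff, mem_cent_iff, sup_le_iff]
    refine ⟨fun h => h.2, fun h => ⟨?_, h⟩⟩
    rw [Subgroup.zpowers_le, Subgroup.mem_centralizer_singleton_iff]
    exact (Subgroup.mem_centralizer_singleton_iff.1 htu).symm
  unfold br
  by_cases h : t ∈ Subgroup.centralizer (R : Set G)
  · rw [if_pos h, if_pos (this.2 h)]
  · rw [if_neg h, if_neg (fun h' => h (this.1 h'))]

end chains

/-- the facts on a chain that are needed for the Brauer map -/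
theorem isIdem_br (hB : BrmStmt) {ℓ : ℕ} {F : Type} [Field F] (hF : GoodF ℓ F) {G : Type}
    [Group G] [Finite G] {e : G → F} (he : IsIdem e) {d : Finset (Subgroup G)}
    (hd : d ∈ chainsOn (psubIn ℓ (⊤ : Subgroup G)) ⊥) :
    IsIdem (fun t : stab d => br (top d) e t) := by
  obtain ⟨h1, h2, h3⟩ := mem_chainsOn.1 hd
  have h4 := top_mem h3 ⟨⊥, h2⟩
  exact (hB ℓ F hF G (top d) (stab d) (mem_psubIn_top.1 (h1 h4)) cent_top_le
    (stab_le h4)).2.2 e he

/-- **Knörr–Robinson for all chains, with Brauer maps** -/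
theorem kna (hS : SmtStmt) (hB : BrmStmt) : KnaStmt := by
  intro ℓ F _ hF G _ _ e he
  classical
  have := Fintype.ofFinite G
  let W : Subgroup G → Subgroup G → ℤ := fun X R => (Nat.card X : ℤ) * (lnum X (br R e) : ℤ)
  have h1 : ∀ d ∈ chainsOn (psubIn ℓ (⊤ : Subgroup G)) ⊥, (-1) ^ (d.card + 1) *
      ((Nat.card (stab d) : ℤ) * (rk (fun t : stab d => br (top d) e t) (cfs F (stab d)) : ℤ)) =
      ∑ u ∈ Finset.univ.filter (fun u : G => ∃ n : ℕ, u ^ ℓ ^ n = 1),
        if u ∈ stab d then (-1) ^ (d.card + 1) *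
          W (Subgroup.centralizer ({u} : Set G) ⊓ stab d) (top d) else 0 := by
    intro d hd
    have h := smt_sub hS hF (stab d) (br (top d) e) (isIdem_br hB hF he hd)
    have h' : (Nat.card (stab d) : ℤ) * (rk (fun t : stab d => br (top d) e t)
        (cfs F (stab d)) : ℤ) = ∑ u ∈ Finset.univ.filter (fun u : G => ∃ n : ℕ, u ^ ℓ ^ n = 1),
        if u ∈ stab d then W (Subgroup.centralizer ({u} : Set G) ⊓ stab d) (top d) else 0 := by
      rw [← Nat.cast_mul, h, Nat.cast_sum]
      refine Finset.sum_congr rfl fun u _ => ?_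
      by_cases hu : u ∈ stab d
      · rw [if_pos hu, if_pos hu, Nat.cast_mul]
      · rw [if_neg hu, if_neg hu, Nat.cast_zero]
    rw [h', Finset.mul_sum]
    refine Finset.sum_congr rfl fun u _ => ?_
    rw [mul_ite, mul_zero]
  rw [Finset.sum_congr rfl h1, Finset.sum_comm, Finset.sum_eq_single 1]
  · refine Finset.sum_congr rfl fun d _ => ?_
    have h2 : Subgroup.centralizer ({1} : Set G) ⊓ stab d = stab d := by
      rw [inf_eq_right]
      intro g _
      rw [Subgroup.mem_centralizer_singleton_iff, one_mul, mul_one]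
    rw [if_pos (one_mem _), h2]
  · intro u hu hu1
    rw [← Finset.sum_filter]
    refine cancel u (Finset.mem_filter.1 hu).2 hu1 W ?_
    intro X R hX
    change (Nat.card X : ℤ) * _ = (Nat.card X : ℤ) * _
    rw [lnum_congr X (fun t ht => br_sup (hX ht) R e)]
  · intro h
    exact absurd (Finset.mem_filter.2 ⟨Finset.mem_univ _, 0, one_pow _⟩) h

/-- For a normal chain the Brauer map may be omitted. -/
theorem lnum_br (hN : NlsStmt) {ℓ : ℕ} {F : Type} [Field F] (hF : GoodF ℓ F) {G : Type}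
    [Group G] [Finite G] {e : G → F} (he : IsCl e) (X R : Subgroup G) (hR : IsPGroup ℓ R)
    (hRX : R ≤ X) (hXR : X ≤ Subgroup.normalizer (R : Set G)) :
    lnum X (br R e) = lnum X e := by
  classical
  have hn : (R.subgroupOf X).Normal := by
    rw [Subgroup.normal_subgroupOf_iff hRX]
    intro g x hg hx
    exact (Subgroup.mem_normalizer_iff.1 (hXR hx) g).1 hg
  have hp : IsPGroup ℓ (R.subgroupOf X) := hR.of_equiv (Subgroup.subgroupOfEquivOfLe hRX).symm
  have hbr : br (R.subgroupOf X) (fun t : X => e t) = fun t : X => br R e t := by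
    funext t
    have : t ∈ Subgroup.centralizer ((R.subgroupOf X : Subgroup X) : Set X) ↔
        (t : G) ∈ Subgroup.centralizer (R : Set G) := by
      rw [Subgroup.mem_centralizer_iff, Subgroup.mem_centralizer_iff]
      constructor
      · intro h x hx
        exact congrArg Subtype.val (h ⟨x, hRX hx⟩ (Subgroup.mem_subgroupOf.2 hx))
      · intro h x hx
        exact Subtype.ext (h x (Subgroup.mem_subgroupOf.1 hx))
    unfold br
    by_cases h : (t : G) ∈ Subgroup.centralizer (R : Set G)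
    · rw [if_pos h, if_pos (this.2 h)]
    · rw [if_neg h, if_neg (fun h' => h (this.1 h'))]
  have hcl : IsCl (fun t : X => e t) := fun x y => he x y
  unfold lnum
  congr 1
  ext f
  refine and_congr_right fun hf => ?_
  obtain ⟨n, ρ, hρ, rfl⟩ := hf
  have h := ((hN ℓ F hF X (R.subgroupOf X) hn hp n ρ hρ).2 _ hcl).2
  rw [hbr] at h
  rw [h]

/-- **Knörr–Robinson** -/
theorem knr (hS : SmtStmt) (hB : BrmStmt) (hC : NchStmt) (hN : NlsStmt) : KnrStmt := by
  intro ℓ F _ hF G _ _ e he
  classical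
  have := Fact.mk hF.prime
  rw [kna hS hB ℓ F hF G e he, YY,
    hC ℓ G ⊤ (fun X R => (Nat.card X : ℤ) * (lnum X (br R e) : ℤ)),
    hC ℓ G ⊤ (fun X _ => (Nat.card X : ℤ) * (lnum X e : ℤ))]
  refine Finset.sum_congr rfl fun d hd => ?_
  rw [Finset.mem_filter, mem_chainsOn] at hd
  obtain ⟨⟨h1, h2, h3⟩, h4⟩ := hd
  have h5 := top_mem h3 ⟨⊥, h2⟩
  change (-1) ^ (d.card + 1) * ((Nat.card (stab d) : ℤ) * (lnum (stab d) (br (top d) e) : ℤ)) =
    (-1) ^ (d.card + 1) * ((Nat.card (stab d) : ℤ) * (lnum (stab d) e : ℤ))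
  rw [lnum_br hN hF he.1 (stab d) (top d) (mem_psubIn_top.1 (h1 h5)) ?_ (stab_le h5)]
  intro g hg
  rw [mem_stab]
  intro D hD
  exact h4 D hD hg

end Pool.Agent.PP.H97
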